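import Pool.Agent.KS6_3.Asd.Fin

/-!
# How the Atkin-Swinnerton-Dyer congruences for `E_k / (j - j(C))^r` fail at `2`, `3` and `5`

The definitions are in `Pool.Agent.KS6_3.Asd.Defs`: `Applies W p` says that the elliptic curve with the integral
Weierstrass equation `W` and the prime `p` satisfy the hypotheses of Q1, `Congr W p k r n l` is the congruence of Q1,
`LhsVal W p k r n l v` says that its left side is a nonzero rational number of valuation `v`, `expo k r l` is the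
predicted exponent, `CongZero p e x` is `x ≡ 0 mod p ^ e`.

Method: for `x` in a residue class `j₁ + p ℤ_p`, `1 / (j - x)^r` is expanded in powers of `1 / (j - j₁)` with
coefficients divisible by powers of `p`; the coefficients at the powers of `p` of `E_k / (j - j₁)^i` modulo a power of
`p` are computed in the kernel, and the left side becomes a polynomial in one `p`-adic variable.
-/

set_option autoImplicit false

namespace Pool.Agent.Results.MP_fb382b_nt.ExtentOfFailure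

open Finset Pool.Agent.KS6_3.Asd

/-- `y² + x y = x³ + 1`, of discriminant `-433` -/
def W₀ : WeierstrassCurve ℤ := ⟨1, 0, 0, 0, 1⟩

lemma W₀_Δ : W₀.Δ = -433 := by
  simp only [W₀, WeierstrassCurve.Δ, WeierstrassCurve.b₂, WeierstrassCurve.b₄, WeierstrassCurve.b₆,
    WeierstrassCurve.b₈]
  norm_num

lemma W₀_j : jInv W₀ = -1 / 433 := by
  rw [jInv, W₀_Δ]
  simp only [W₀, WeierstrassCurve.c₄, WeierstrassCurve.b₂, WeierstrassCurve.b₄]
  norm_num

lemma val_odd (a b : ℤ) (ha : ¬ (2 : ℤ) ∣ a) (hb : ¬ (2 : ℤ) ∣ b) : padicValRat 2 ((a : ℚ) / b) = 0 := by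
  have h1 : a ≠ 0 := fun h => ha (by rw [h]; exact dvd_zero _)
  have h2 : b ≠ 0 := fun h => hb (by rw [h]; exact dvd_zero _)
  rw [padicValRat.div (by exact_mod_cast h1) (by exact_mod_cast h2), padicValRat.of_int, padicValRat.of_int,
    padicValInt.eq_zero_of_not_dvd (by exact_mod_cast ha), padicValInt.eq_zero_of_not_dvd (by exact_mod_cast hb)]
  norm_num

lemma W₀_applies : Applies W₀ 2 where
  prime := Nat.prime_two
  good := by rw [W₀_Δ]; norm_num
  ne_zero := by rw [W₀_j]; norm_num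
  ne_1728 := by rw [W₀_j]; norm_num
  val := by
    rw [W₀_j]
    have := val_odd (-1) 433 (by norm_num) (by norm_num)
    push_cast at this
    exact this
  val_1728 := by
    rw [W₀_j]
    have h : (-1 / 433 - 1728 : ℚ) = ((-748225 : ℤ) : ℚ) / ((433 : ℤ) : ℚ) := by norm_num
    rw [h]
    exact val_odd _ _ (by norm_num) (by norm_num)

/-- `y² + x y = x³ + 2`, of discriminant `-1730` -/
def W₁ : WeierstrassCurve ℤ := ⟨1, 0, 0, 0, 2⟩

lemma W₁_Δ : W₁.Δ = -1730 := by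
  simp only [W₁, WeierstrassCurve.Δ, WeierstrassCurve.b₂, WeierstrassCurve.b₄, WeierstrassCurve.b₆,
    WeierstrassCurve.b₈]
  norm_num

lemma W₁_j : jInv W₁ = -1 / 1730 := by
  rw [jInv, W₁_Δ]
  simp only [W₁, WeierstrassCurve.c₄, WeierstrassCurve.b₂, WeierstrassCurve.b₄]
  norm_num

lemma val_quot (p : ℕ) [Fact p.Prime] (a b : ℤ) (ha : a ≠ 0) (hb : ¬ (p : ℤ) ∣ b) :
    padicValRat p ((a : ℚ) / b) = padicValInt p a := by
  have h2 : b ≠ 0 := fun h => hb (by rw [h]; exact dvd_zero _)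
  rw [padicValRat.div (by exact_mod_cast ha) (by exact_mod_cast h2), padicValRat.of_int, padicValRat.of_int,
    padicValInt.eq_zero_of_not_dvd hb, Nat.cast_zero, sub_zero]

lemma W₁_applies : Applies W₁ 3 where
  prime := Nat.prime_three
  good := by rw [W₁_Δ]; norm_num
  ne_zero := by rw [W₁_j]; norm_num
  ne_1728 := by rw [W₁_j]; norm_num
  val := by
    rw [W₁_j]
    have := val_quot 3 (-1) 1730 (by norm_num) (by norm_num)
    push_cast at this
    rw [this, padicValInt.eq_zero_of_not_dvd (by norm_num)]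
    rfl
  val_1728 := by
    rw [W₁_j]
    have h : (-1 / 1730 - 1728 : ℚ) = ((-2989441 : ℤ) : ℚ) / ((1730 : ℤ) : ℚ) := by norm_num
    rw [h, val_quot 3 _ _ (by norm_num) (by norm_num), padicValInt.eq_zero_of_not_dvd (by norm_num)]
    rfl

lemma not_congZero (p e : ℕ) [Fact p.Prime] (a b : ℤ) (hb : ¬ (p : ℤ) ∣ b) (h : ¬ (p : ℤ) ^ e ∣ a) :
    ¬ CongZero p e ((a : ℚ) / b) := by
  have ha : a ≠ 0 := fun h0 => h (by rw [h0]; exact dvd_zero _)
  have h2 : b ≠ 0 := fun h => hb (by rw [h]; exact dvd_zero _)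
  intro h1
  rcases h1 with h1 | h1
  · rw [div_eq_zero_iff] at h1
    rcases h1 with h1 | h1
    · exact ha (by exact_mod_cast h1)
    · exact h2 (by exact_mod_cast h1)
  · rw [val_quot p a b ha hb] at h1
    exact h ((padicValInt_dvd_iff e a).2 (Or.inr (by exact_mod_cast h1)))

lemma W₀_class : ¬ CongZero 2 2 (jInv W₀ - 1) := by
  have h : jInv W₀ - 1 = ((-434 : ℤ) : ℚ) / ((433 : ℤ) : ℚ) := by rw [W₀_j]; norm_num
  rw [h]
  exact not_congZero 2 2 _ _ (by norm_num) (by norm_num)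

lemma W₁_class : ¬ (CongZero 3 2 (jInv W₁ - 1) ∨ CongZero 3 2 (jInv W₁ + 1)) := by
  have h : jInv W₁ - 1 = ((-1731 : ℤ) : ℚ) / ((1730 : ℤ) : ℚ) := by rw [W₁_j]; norm_num
  have h' : jInv W₁ + 1 = ((1729 : ℤ) : ℚ) / ((1730 : ℤ) : ℚ) := by rw [W₁_j]; norm_num
  rw [h, h']
  rintro (h1 | h1)
  · exact not_congZero 3 2 _ _ (by norm_num) (by norm_num) h1
  · exact not_congZero 3 2 _ _ (by norm_num) (by norm_num) h1

/-- the pairs of order two -/
lemma ord2 {k : ℕ} (hk : k ∈ ({4, 6, 8, 10, 14} : Finset ℕ)) (h4 : k ≠ 4) :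
    ∃ (W : WeierstrassCurve ℤ) (p l : ℕ), Applies W p ∧ 1 ≤ l ∧ ¬ Congr W p k 2 1 l := by
  simp only [Finset.mem_insert, Finset.mem_singleton] at hk
  rcases hk with rfl | rfl | rfl | rfl | rfl
  · exact absurd rfl h4
  · exact ⟨W₁, 3, 4, W₁_applies, by norm_num, fun h => W₁_class ((e3 W₁_applies).1.1 h)⟩
  · exact ⟨W₁, 3, 6, W₁_applies, by norm_num, fun h => W₁_class ((e3 W₁_applies).2.1 h)⟩
  · exact ⟨W₀, 2, 8, W₀_applies, by norm_num, fun h => W₀_class ((e2 W₀_applies).1.1 h)⟩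
  · exact ⟨W₀, 2, 12, W₀_applies, by norm_num, fun h => W₀_class ((e2 W₀_applies).2.1 h)⟩

lemma every_pair {k r : ℕ} (hk : k ∈ ({4, 6, 8, 10, 14} : Finset ℕ)) (hr : 1 ≤ r) (hr' : r ≤ k - 1)
    (h : (k, r) ≠ (4, 2)) :
    ∃ (W : WeierstrassCurve ℤ) (p l : ℕ), Applies W p ∧ 1 ≤ l ∧ ¬ Congr W p k r 1 l := by
  have hr2 : r = 1 ∨ r = 2 ∨ 3 ≤ r := by omega
  rcases hr2 with rfl | rfl | h3
  · refine ⟨W₀, 2, k - 1, W₀_applies, ?_, fun h1 => W₀_class ((b2 W₀_applies hk).1.1 h1)⟩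
    simp only [Finset.mem_insert, Finset.mem_singleton] at hk
    omega
  · exact ord2 hk (fun h4 => h (by rw [h4]))
  · obtain ⟨l, h4, _, h5⟩ := ge3 W₀_applies hk h3 hr'
    exact ⟨W₀, 2, l, W₀_applies, h4, h5⟩

lemma not_Q1 : ¬ Q1 := by
  intro h
  obtain ⟨l, h1, _, h3⟩ := ge3 W₀_applies (k := 4) (by decide) (r := 3) le_rfl le_rfl
  exact h3 (h W₀ 2 W₀_applies 4 (by decide) 3 (by norm_num) le_rfl 1 l le_rfl h1)

lemma pv2 (n v : ℕ) (p : ℕ) (h : padicValNat p n = v) : (padicValNat p n : ℤ) = v := by rw [h]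

lemma fac (p n a b : ℕ) [Fact p.Prime] (h : n = p ^ a * b) (hb : ¬ p ∣ b) : padicValNat p n = a := by
  have hb0 : b ≠ 0 := fun h0 => hb (by rw [h0]; exact dvd_zero _)
  rw [h, padicValNat.mul (pow_ne_zero _ (Fact.out : p.Prime).ne_zero) hb0, padicValNat.prime_pow,
    padicValNat.eq_zero_of_not_dvd hb, add_zero]

theorem result :
    -- Q1 is false, and it fails for every weight and every order of the pole with the possible exception of `(4, 2)`
    ¬ Q1 ∧
    (∀ k ∈ ({4, 6, 8, 10, 14} : Finset ℕ), ∀ r : ℕ, 1 ≤ r → r ≤ k - 1 → (k, r) ≠ (4, 2) →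
      ∃ (W : WeierstrassCurve ℤ) (p l : ℕ), Applies W p ∧ 1 ≤ l ∧ ¬ Congr W p k r 1 l) ∧
    -- poles of order at least three, all weights: every curve fails at 2
    (∀ W : WeierstrassCurve ℤ, Applies W 2 → ∀ k ∈ ({4, 6, 8, 10, 14} : Finset ℕ), ∀ r : ℕ, 3 ≤ r → r ≤ k - 1 →
      ∃ l : ℕ, 1 ≤ l ∧ l ≤ k - 1 ∧ ¬ Congr W 2 k r 1 l) ∧
    -- poles of order two
    (∀ W : WeierstrassCurve ℤ, Applies W 2 → ∀ k ∈ ({10, 14} : Finset ℕ),
      (Congr W 2 k 2 1 (k - 2) ↔ CongZero 2 2 (jInv W - 1))) ∧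
    (∀ W : WeierstrassCurve ℤ, Applies W 3 → ∀ k ∈ ({6, 8} : Finset ℕ),
      (Congr W 3 k 2 1 (k - 2) ↔ CongZero 3 2 (jInv W - 1) ∨ CongZero 3 2 (jInv W + 1))) ∧
    -- poles of order one, `l ≥ k - 1`
    (∀ W : WeierstrassCurve ℤ, Applies W 2 → ∀ k ∈ ({4, 6, 8, 10, 14} : Finset ℕ),
      (Congr W 2 k 1 1 (k - 1) ↔ CongZero 2 2 (jInv W - 1)) ∧
      (¬ Congr W 2 k 1 1 (k - 1) → LhsVal W 2 k 1 1 (k - 1) (expo k 1 (k - 1) - (k - 2)))) ∧
    (∀ W : WeierstrassCurve ℤ, Applies W 3 → ∀ kl ∈ ({(4, 3), (6, 6)} : Finset (ℕ × ℕ)),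
      (Congr W 3 kl.1 1 1 kl.2 ↔ CongZero 3 2 (jInv W - 1) ∨ CongZero 3 2 (jInv W + 1))) ∧
    (∀ W : WeierstrassCurve ℤ, Applies W 5 →
      (Congr W 5 6 1 1 5 ↔ CongZero 5 2 (jInv W - 7) ∨ CongZero 5 2 (jInv W - 14) ∨ CongZero 5 2 (jInv W - 21))) ∧
    -- with `l = k - 1`: every curve fails at 2
    (∀ W : WeierstrassCurve ℤ, Applies W 2 → ¬ Congr W 2 14 11 1 13) ∧
    -- poles of order `k - 1`, `l = k - 2`: every curve fails at 2, 3 and 5, by the same exact amount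
    (∀ (W : WeierstrassCurve ℤ) (p k : ℕ), Applies W p →
      (p, k) ∈ ({(2, 4), (2, 6), (2, 8), (2, 10), (2, 14), (3, 6), (3, 8), (3, 10), (5, 8)} : Finset (ℕ × ℕ)) →
      LhsVal W p k (k - 1) 1 (k - 2) (expo k (k - 1) (k - 2) - padicValNat p (Nat.factorial (k - 2))) ∧
      ¬ Congr W p k (k - 1) 1 (k - 2)) := by
  refine ⟨not_Q1, fun k hk r h1 h2 h3 => every_pair hk h1 h2 h3, fun W hW k hk r h1 h2 => ge3 hW hk h1 h2, ?_, ?_, fun W hW k hk => b2 hW hk, ?_,
    fun W hW => (b5_6 hW).1, ?_, ?_⟩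
  · intro W hW k hk
    simp only [Finset.mem_insert, Finset.mem_singleton] at hk
    rcases hk with rfl | rfl
    · exact (e2 hW).1
    · exact (e2 hW).2
  · intro W hW k hk
    simp only [Finset.mem_insert, Finset.mem_singleton] at hk
    rcases hk with rfl | rfl
    · exact (e3 hW).1
    · exact (e3 hW).2
  · intro W hW kl hkl
    simp only [Finset.mem_insert, Finset.mem_singleton] at hkl
    rcases hkl with rfl | rfl
    · exact (b3_4 hW).1
    · exact (b3_6 hW).1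
  · intro W hW
    obtain ⟨v, hv, h⟩ := all2' hW
    exact not_congr_of h (by norm_num [expo]; omega)
  · intro W p k hW hpk
    simp only [Finset.mem_insert, Finset.mem_singleton, Prod.mk.injEq] at hpk
    have key : ∀ (p k v : ℕ) (_ : Fact p.Prime), LhsVal W p k (k - 1) 1 (k - 2) v →
        expo k (k - 1) (k - 2) - padicValNat p (Nat.factorial (k - 2)) = v → (v : ℤ) < expo k (k - 1) (k - 2) →
        LhsVal W p k (k - 1) 1 (k - 2) (expo k (k - 1) (k - 2) - padicValNat p (Nat.factorial (k - 2))) ∧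
          ¬ Congr W p k (k - 1) 1 (k - 2) := by
      intro p k v _ h1 h2 h3
      exact ⟨by rw [h2]; exact h1, not_congr_of h1 h3⟩
    rcases hpk with ⟨rfl, rfl⟩ | ⟨rfl, rfl⟩ | ⟨rfl, rfl⟩ | ⟨rfl, rfl⟩ | ⟨rfl, rfl⟩ | ⟨rfl, rfl⟩ | ⟨rfl, rfl⟩ |
      ⟨rfl, rfl⟩ | ⟨rfl, rfl⟩
    · refine key 2 4 0 f2 (all2 hW).1 ?_ (by norm_num [expo])
      rw [fac 2 (Nat.factorial (4 - 2)) 1 1 (by decide) (by norm_num)]
      norm_num [expo]
    · refine key 2 6 3 f2 (all2 hW).2.1 ?_ (by norm_num [expo])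
      rw [fac 2 (Nat.factorial (6 - 2)) 3 3 (by decide) (by norm_num)]
      norm_num [expo]
    · refine key 2 8 11 f2 (all2 hW).2.2.1 ?_ (by norm_num [expo])
      rw [fac 2 (Nat.factorial (8 - 2)) 4 45 (by decide) (by norm_num)]
      norm_num [expo]
    · refine key 2 10 21 f2 (all2 hW).2.2.2.1 ?_ (by norm_num [expo])
      rw [fac 2 (Nat.factorial (10 - 2)) 7 315 (by decide) (by norm_num)]
      norm_num [expo]
    · refine key 2 14 56 f2 (all2 hW).2.2.2.2 ?_ (by norm_num [expo])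
      rw [fac 2 (Nat.factorial (14 - 2)) 10 467775 (by decide) (by norm_num)]
      norm_num [expo]
    · refine key 3 6 5 f3 (all3 hW).1 ?_ (by norm_num [expo])
      rw [fac 3 (Nat.factorial (6 - 2)) 1 8 (by decide) (by norm_num)]
      norm_num [expo]
    · refine key 3 8 13 f3 (all3 hW).2.1 ?_ (by norm_num [expo])
      rw [fac 3 (Nat.factorial (8 - 2)) 2 80 (by decide) (by norm_num)]
      norm_num [expo]
    · refine key 3 10 26 f3 (all3 hW).2.2 ?_ (by norm_num [expo])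
      rw [fac 3 (Nat.factorial (10 - 2)) 2 4480 (by decide) (by norm_num)]
      norm_num [expo]
    · refine key 5 8 14 f5 (all5 hW) ?_ (by norm_num [expo])
      rw [fac 5 (Nat.factorial (8 - 2)) 1 144 (by decide) (by norm_num)]
      norm_num [expo]

end Pool.Agent.Results.MP_fb382b_nt.ExtentOfFailure
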